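import Mathlib
import Pool.Agent.Lib_helper81.LongJames.Final
import Pool.Agent.Lib_helper81.LongJames.Bump

set_option autoImplicit false

/-!
# MP_f24657_an, Q2: the long James space admits a continuous Gateaux differentiable bump function
-/

namespace Pool.Agent.Results.MP_f24657_an.GateauxBump

open Pool.Agent.LongJames

/-- The ordinal interval `[0, ω₁]` with its order topology. -/
abbrev OrdInterval : Type 1 := ↥(Set.Iic (Cardinal.ord (Cardinal.aleph.{0} 1)))

/-- The last point `ω₁` of the interval. -/
noncomputable def last : OrdInterval := ⟨Cardinal.ord (Cardinal.aleph 1), Set.mem_Iic.mpr le_rfl⟩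

/-- The set of all sums of squares of increments of `f` along finite strictly increasing
sequences of points of `[0, ω₁]`. -/
def variations (f : OrdInterval → ℝ) : Set ℝ :=
  {s : ℝ | ∃ n : ℕ, ∃ α : Fin (n + 1) → OrdInterval, StrictMono α ∧
    s = ∑ i : Fin n, (f (α i.succ) - f (α i.castSucc)) ^ 2}

instance : CompactSpace OrdInterval := by
  rw [← isCompact_iff_compactSpace, ← Set.Icc_bot]
  exact isCompact_Icc

noncomputable instance : OrderTop OrdInterval where
  top := last
  le_top := fun x => x.2

noncomputable instance : SuccOrder OrdInterval := SuccOrder.ofLinearWellFoundedLT _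

/-- The long James space as a space of functions: the continuous functions on `[0, ω₁]`
vanishing at `ω₁` whose square variation is finite. -/
def JSub : Submodule ℝ (OrdInterval → ℝ) where
  carrier := {f | Continuous f ∧ f last = 0 ∧ BddAbove (variations f)}
  zero_mem' := ⟨InJ.zero.cont, InJ.zero.top, InJ.zero.bdd⟩
  add_mem' := by
    rintro f g ⟨h1, h2, h3⟩ ⟨h4, h5, h6⟩
    have := InJ.add (X := OrdInterval) ⟨h1, h2, h3⟩ ⟨h4, h5, h6⟩
    exact ⟨this.cont, this.top, this.bdd⟩
  smul_mem' := by
    rintro c f ⟨h1, h2, h3⟩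
    have := InJ.smul (X := OrdInterval) c ⟨h1, h2, h3⟩
    exact ⟨this.cont, this.top, this.bdd⟩

/-- The long James space `J(ω₁)`. -/
def LongJames : Type 1 := ↥JSub

noncomputable instance : AddCommGroup LongJames := inferInstanceAs (AddCommGroup ↥JSub)

noncomputable instance : Module ℝ LongJames := inferInstanceAs (Module ℝ ↥JSub)

/-- The function underlying an element of the long James space. -/
def LongJames.fn (f : LongJames) : OrdInterval → ℝ := f.1

lemma LongJames.inJ (f : LongJames) : InJ f.fn := ⟨f.2.1, f.2.2.1, f.2.2.2⟩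

/-- The norm `‖f‖ = sup (∑ |f(α_{i+1}) - f(α_i)|²)^{1/2}` of the long James space. -/
noncomputable instance : Norm LongJames := ⟨fun f => √(sSup (variations f.fn))⟩

lemma norm_def (f : LongJames) : ‖f‖ = √(sSup (VS f.fn)) := rfl

lemma sqSemi_VA (A : Finset OrdInterval) : SqSemi (fun f : OrdInterval → ℝ => VA f A) :=
  SqSemi.sum A (fun b f => kV f (pv A b) b) (fun b _ => SqSemi.linear_sq (dfL (pv A b) b))

lemma core : NormedSpace.Core ℝ LongJames where
  norm_nonneg f := Real.sqrt_nonneg _
  norm_smul c f := by
    rw [norm_def, norm_def]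
    have e : (c • f).fn = c • f.fn := rfl
    have h : sSup (VS (c • f).fn) = c ^ 2 * sSup (VS f.fn) := by
      have : Nonempty OrdInterval := ⟨last⟩
      apply le_antisymm
      · apply sSup_VS_le
        intro A
        rw [e, VA_smul]
        exact mul_le_mul_of_nonneg_left (VA_le f.inJ.bdd A) (sq_nonneg c)
      · rcases eq_or_ne c 0 with hc | hc
        · rw [hc]
          simp only [ne_eq, OfNat.ofNat_ne_zero, not_false_eq_true, zero_pow, zero_mul]
          exact sSup_VS_nonneg _
        · have hc2 : 0 < c ^ 2 := by positivity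
          rw [← le_div_iff₀' hc2]
          apply sSup_VS_le
          intro A
          rw [le_div_iff₀' hc2, ← VA_smul]
          exact VA_le (c • f).inJ.bdd A
    rw [h, Real.sqrt_mul (sq_nonneg c), Real.sqrt_sq_eq_abs, Real.norm_eq_abs]
  norm_triangle f g := by
    have : Nonempty OrdInterval := ⟨last⟩
    rw [norm_def, norm_def, norm_def, Real.sqrt_le_left (by positivity)]
    apply sSup_VS_le
    intro A
    refine ((sqSemi_VA A).add_sq f.fn g.fn).trans ?_
    apply pow_le_pow_left₀ (by positivity)
    apply add_le_add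
    · exact Real.sqrt_le_sqrt (VA_le f.inJ.bdd A)
    · exact Real.sqrt_le_sqrt (VA_le g.inJ.bdd A)
  norm_eq_zero_iff f := by
    constructor
    · intro h
      rw [norm_def, Real.sqrt_eq_zero (sSup_VS_nonneg _)] at h
      by_contra hne
      have h0 : f.fn ≠ 0 := fun h' => hne (Subtype.ext h')
      have h1 := le_pu (fun _ => 0) f.inJ
      have h2 := pu_le (fun _ => 0) f.inJ
      have h3 := SQ_pos (fun _ => 0) f.inJ h0
      rw [h, Real.sqrt_zero, mul_zero] at h2
      have h4 : 0 < pu (fun _ => 0) f.fn := Real.sqrt_pos.mpr h3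
      linarith
    · rintro rfl
      rw [norm_def]
      have e : (0 : LongJames).fn = 0 := rfl
      have h : sSup (VS (0 : LongJames).fn) = 0 := by
        have : Nonempty OrdInterval := ⟨last⟩
        apply le_antisymm
        · apply sSup_VS_le
          intro A
          rw [e]
          simp [VA, cost, kV]
        · exact sSup_VS_nonneg _
      rw [h, Real.sqrt_zero]

noncomputable instance : NormedAddCommGroup LongJames := NormedAddCommGroup.ofCore core

noncomputable instance : NormedSpace ℝ LongJames := NormedSpace.ofCore core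

lemma bot_lt : (⟨0, Set.mem_Iic.mpr zero_le⟩ : OrdInterval) < ⊤ := by
  have h : (0 : Ordinal.{0}) < Cardinal.ord (Cardinal.aleph 1) := by
    rw [pos_iff_ne_zero, Ne, Cardinal.ord_eq_zero]
    exact (Cardinal.aleph_pos 1).ne'
  exact h

instance : Nontrivial LongJames := by
  have hJ := InJ_ee bot_lt
  refine ⟨⟨⟨ee _, hJ.cont, hJ.top, hJ.bdd⟩, 0, ?_⟩⟩
  intro h
  have h1 := congrFun (congrArg Subtype.val h) ⟨0, Set.mem_Iic.mpr zero_le⟩
  have h2 : ee (⟨0, Set.mem_Iic.mpr zero_le⟩ : OrdInterval)
    ⟨0, Set.mem_Iic.mpr zero_le⟩ = 0 := h1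
  rw [ee_of_le le_rfl] at h2
  exact one_ne_zero h2

/-- **Positive answer to Q2.** The long James space `J(ω₁)` admits a continuous bump function
(not identically zero, with bounded support) which is Gateaux differentiable at every point. -/
theorem result : ∃ b : LongJames → ℝ, Continuous b ∧ (∃ x, b x ≠ 0) ∧
    Bornology.IsBounded (Function.support b) ∧
    ∀ x, ∃ L : LongJames →L[ℝ] ℝ, ∀ h, HasLineDerivAt ℝ b (L h) x h := by
  obtain ⟨p, h1, h2, h3, h4⟩ := main_general OrdInterval
  apply exists_bump (fun f : LongJames => p f.fn)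
    (fun x y => h1 _ _ x.inJ y.inJ) (fun a x => h2 a _ x.inJ) 1 3 one_pos
    (fun x => by rw [one_mul]; exact (h3 _ x.inJ).1) (fun x => (h3 _ x.inJ).2)
  intro x hx h
  exact h4 _ x.inJ (fun h' => hx (Subtype.ext h')) _ h.inJ

end Pool.Agent.Results.MP_f24657_an.GateauxBump
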